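import Mathlib

set_option autoImplicit false

namespace Pool.Agent.Results.MP_c60ead_co.Counter

open Equiv

/-- `Y` is a `k`-transitive subset of the symmetric group on `n` points -/
def KTrans (n k : ℕ) (Y : Set (Perm (Fin n))) : Prop :=
  ∃ r : ℕ, 0 < r ∧ ∀ α β : Fin k → Fin n, Function.Injective α → Function.Injective β →
    {y | y ∈ Y ∧ ∀ i, y (α i) = β i}.ncard = r

def Blk {n : ℕ} (y : Perm (Fin n)) : Prop := ∀ x, (y x).val / 2 = x.val / 2

def YY (n : ℕ) : Set (Perm (Fin n)) := {y | Perm.sign y = 1 ↔ ¬ Blk y}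

def SS {n k : ℕ} (α β : Fin k → Fin n) : Set (Perm (Fin n)) := {y | ∀ i, y (α i) = β i}

theorem SS_card {n k : ℕ} (α β α' β' : Fin k → Fin n) (hα : Function.Injective α)
    (hβ : Function.Injective β) (hα' : Function.Injective α') (hβ' : Function.Injective β') :
    (SS α β).ncard = (SS α' β').ncard := by
  obtain ⟨σ, hσ⟩ := Perm.exists_extending_pair _ _ hα' hα
  obtain ⟨ρ, hρ⟩ := Perm.exists_extending_pair _ _ hβ hβ'
  refine Set.ncard_congr (fun y _ => ρ * y * σ) ?_ ?_ ?_
  · intro y hy i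
    simp only [Perm.mul_apply, hσ, hy i, hρ]
  · intro a b _ _ h
    simpa using h
  · intro z hz
    refine ⟨ρ⁻¹ * z * σ⁻¹, ?_, by group⟩
    intro i
    have h1 : σ⁻¹ (α i) = α' i := by rw [← hσ i]; simp
    simp only [Perm.mul_apply, h1, hz i]
    rw [← hρ i]; simp

theorem SS_pos {n k : ℕ} (α β : Fin k → Fin n) (hα : Function.Injective α)
    (hβ : Function.Injective β) : 0 < (SS α β).ncard := by
  obtain ⟨σ, hσ⟩ := Perm.exists_extending_pair _ _ hα hβ
  rw [Set.ncard_pos (Set.toFinite _)]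
  exact ⟨σ, hσ⟩

theorem exists_swap {n : ℕ} (hn : 4 ≤ n) (α : Fin ((n - 2) / 2) → Fin n) :
    ∃ a b : Fin n, a ≠ b ∧ a.val / 2 = b.val / 2 ∧ ∀ i, α i ≠ a ∧ α i ≠ b := by
  have h : ∃ j ∈ Finset.range (n / 2), j ∉ Finset.univ.image (fun i => (α i).val / 2) := by
    by_contra hc
    push Not at hc
    have h1 : Finset.range (n / 2) ⊆ Finset.univ.image (fun i => (α i).val / 2) := hc
    have h2 := Finset.card_le_card h1
    have h3 : (Finset.univ.image (fun i => (α i).val / 2)).card ≤ (n - 2) / 2 := by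
      refine Finset.card_image_le.trans ?_
      simp
    rw [Finset.card_range] at h2
    omega
  obtain ⟨j, hj, hj'⟩ := h
  rw [Finset.mem_range] at hj
  refine ⟨⟨2 * j, by omega⟩, ⟨2 * j + 1, by omega⟩, ?_, ?_, ?_⟩
  · intro h
    have := congrArg Fin.val h
    simp at this
  · simp only
    omega
  · intro i
    have h1 : (α i).val / 2 ≠ j := fun h => hj' (Finset.mem_image.2 ⟨i, Finset.mem_univ _, h⟩)
    constructor
    · intro h
      have := congrArg Fin.val h
      simp only at this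
      omega
    · intro h
      have := congrArg Fin.val h
      simp only at this
      omega

theorem blk_swap {n : ℕ} {a b : Fin n} (h : a.val / 2 = b.val / 2) : Blk (swap a b) := by
  intro x
  rw [swap_apply_def]
  split_ifs with h1 h2
  · rw [h1, h]
  · rw [h2, h]
  · rfl

theorem blk_mul {n : ℕ} {y z : Perm (Fin n)} (hz : Blk z) : Blk (y * z) ↔ Blk y := by
  constructor
  · intro h x
    have h1 := h (z⁻¹ x)
    have h2 := hz (z⁻¹ x)
    simp only [Perm.mul_apply, Perm.coe_inv, apply_symm_apply] at h1 h2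
    rw [h1, h2]
  · intro h x
    rw [Perm.mul_apply, h, hz]

theorem flip_mem {n : ℕ} {a b : Fin n} (hab : a ≠ b) (h : a.val / 2 = b.val / 2)
    (y : Perm (Fin n)) : y * swap a b ∈ YY n ↔ y ∉ YY n := by
  simp only [YY, Set.mem_ofPred_eq, blk_mul (blk_swap h), Perm.sign_mul, Perm.sign_swap hab]
  rcases Int.units_eq_one_or (Perm.sign y) with h1 | h1
  · rw [h1]
    have : ¬ ((1 : ℤˣ) * -1 = 1) := by decide
    simp only [this, false_iff, true_iff]
  · rw [h1]
    have h2 : ((-1 : ℤˣ) * -1 = 1) := by decide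
    have h3 : ¬ ((-1 : ℤˣ) = 1) := by decide
    simp only [h2, h3, false_iff, true_iff, not_not]

theorem half {n : ℕ} (hn : 4 ≤ n) (α β : Fin ((n - 2) / 2) → Fin n) :
    2 * {y | y ∈ YY n ∧ ∀ i, y (α i) = β i}.ncard = (SS α β).ncard := by
  obtain ⟨a, b, hab, h, hα⟩ := exists_swap hn α
  have hfix : ∀ i, swap a b (α i) = α i := fun i => swap_apply_of_ne_of_ne (hα i).1 (hα i).2
  have h1 : {y | y ∈ YY n ∧ ∀ i, y (α i) = β i}.ncard =
      {y | y ∉ YY n ∧ ∀ i, y (α i) = β i}.ncard := by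
    refine Set.ncard_congr (fun y _ => y * swap a b) ?_ ?_ ?_
    · intro y hy
      refine ⟨fun hc => (flip_mem hab h y).1 hc hy.1, fun i => ?_⟩
      rw [Perm.mul_apply, hfix, hy.2]
    · intro x y _ _ hxy
      simpa using hxy
    · intro z hz
      refine ⟨z * swap a b, ⟨(flip_mem hab h z).2 hz.1, fun i => ?_⟩, ?_⟩
      · rw [Perm.mul_apply, hfix, hz.2]
      · simp [mul_assoc]
  have h2 : SS α β = {y | y ∈ YY n ∧ ∀ i, y (α i) = β i} ∪
      {y | y ∉ YY n ∧ ∀ i, y (α i) = β i} := by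
    ext y
    simp only [SS, Set.mem_ofPred_eq, Set.mem_union]
    tauto
  rw [h2, Set.ncard_union_eq ?_ (Set.toFinite _) (Set.toFinite _), ← h1]
  · ring
  · rw [Set.disjoint_left]
    intro y h3 h4
    exact h4.1 h3.1

theorem trans_YY {n : ℕ} (hn : 4 ≤ n) : KTrans n ((n - 2) / 2) (YY n) := by
  let e : Fin ((n - 2) / 2) → Fin n := fun i => ⟨i.val, by omega⟩
  have he : Function.Injective e := by
    intro i j h
    have := congrArg Fin.val h
    exact Fin.ext this
  refine ⟨{y | y ∈ YY n ∧ ∀ i, y (e i) = e i}.ncard, ?_, ?_⟩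
  · have h1 := half hn e e
    have h2 := SS_pos e e he he
    omega
  · intro α β hα hβ
    have h1 := half hn e e
    have h2 := half hn α β
    have h3 := SS_card α β e e hα hβ he he
    omega

theorem result :
    (∀ n : ℕ, 4 ≤ n → ∃ Y : Set (Perm (Fin n)), KTrans n ((n - 2) / 2) Y ∧
      Y ≠ (alternatingGroup (Fin n) : Set (Perm (Fin n))) ∧ Y ≠ Set.univ ∧
      Y ≠ (alternatingGroup (Fin n) : Set (Perm (Fin n)))ᶜ) ∧
    ¬ ∃ n₀ : ℕ, ∀ n : ℕ, n₀ ≤ n → ∀ Y : Set (Perm (Fin n)), KTrans n ((n - 2) / 2) Y →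
      Y = (alternatingGroup (Fin n) : Set (Perm (Fin n))) ∨ Y = Set.univ := by
  have main : ∀ n : ℕ, 4 ≤ n → ∃ Y : Set (Perm (Fin n)), KTrans n ((n - 2) / 2) Y ∧
      Y ≠ (alternatingGroup (Fin n) : Set (Perm (Fin n))) ∧ Y ≠ Set.univ ∧
      Y ≠ (alternatingGroup (Fin n) : Set (Perm (Fin n)))ᶜ := by
    intro n hn
    have h1 : (1 : Perm (Fin n)) ∉ YY n := by
      intro h
      have h2 : Blk (1 : Perm (Fin n)) := fun x => rfl
      exact (h.1 (by simp)) h2
    refine ⟨YY n, trans_YY hn, ?_, ?_, ?_⟩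
    · intro h
      rw [h] at h1
      exact h1 (Subgroup.one_mem _)
    · intro h
      rw [h] at h1
      exact h1 (Set.mem_univ _)
    · intro h
      let a : Fin n := ⟨0, by omega⟩
      let b : Fin n := ⟨1, by omega⟩
      let c : Fin n := ⟨2, by omega⟩
      have hab : a ≠ b := by intro h; have := congrArg Fin.val h; simp [a, b] at this
      have hac : a ≠ c := by intro h; have := congrArg Fin.val h; simp [a, c] at this
      have hbc : b ≠ c := by intro h; have := congrArg Fin.val h; simp [b, c] at this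
      have hs : Perm.sign (swap a c * swap a b) = 1 := by
        rw [Perm.sign_mul, Perm.sign_swap hac, Perm.sign_swap hab]; decide
      have h2 : swap a c * swap a b ∈ YY n := by
        refine ⟨fun _ hb => ?_, fun _ => hs⟩
        have h3 := hb b
        rw [Perm.mul_apply, swap_apply_right, swap_apply_left] at h3
        simp [b, c] at h3
      rw [h] at h2
      exact h2 (Perm.mem_alternatingGroup.2 hs)
  refine ⟨main, ?_⟩
  rintro ⟨n₀, h⟩
  obtain ⟨Y, h1, h2, h3, -⟩ := main (n₀ + 4) (by omega)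
  rcases h (n₀ + 4) (by omega) Y h1 with h4 | h4
  · exact h2 h4
  · exact h3 h4

end Pool.Agent.Results.MP_c60ead_co.Counter
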